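import Pool.Agent.Helper72_Cut.Statements
import Pool.Agent.Helper91_CW.Alg

/-!
# Squad MP_1dbb29_pr : module D5 MIXL
-/

set_option autoImplicit false
set_option linter.unusedSectionVars false
set_option linter.unusedSimpArgs false

namespace H72C

open Finset Equiv Pool.Agent.Helper91_CW

namespace Mixl

section ev
variable {G : Type} [Fintype G]

/-- integral of a function with respect to a signed measure -/
noncomputable def ev (φ : G → ℝ) (x : Alg G) : ℝ := ∑ g, x.coeff g * φ g

theorem ev_add (φ : G → ℝ) (x y : Alg G) : ev φ (x + y) = ev φ x + ev φ y := by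
  simp [ev, add_mul, Finset.sum_add_distrib]

theorem ev_smul (φ : G → ℝ) (c : ℝ) (x : Alg G) : ev φ (c • x) = c * ev φ x := by
  simp [ev, Finset.mul_sum, mul_assoc]

theorem ev_zero (φ : G → ℝ) : ev φ (0 : Alg G) = 0 := by simp [ev]

theorem ev_sub (φ : G → ℝ) (x y : Alg G) : ev φ (x - y) = ev φ x - ev φ y := by
  simp [ev, sub_mul, Finset.sum_sub_distrib]

theorem ev_sum {ι : Type*} (φ : G → ℝ) (s : Finset ι) (f : ι → Alg G) :
    ev φ (∑ i ∈ s, f i) = ∑ i ∈ s, ev φ (f i) := by
  classical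
  induction s using Finset.induction_on with
  | empty => simp [ev_zero]
  | insert a s ha ih => rw [Finset.sum_insert ha, Finset.sum_insert ha, ev_add, ih]

theorem ev_pt (φ : G → ℝ) (g : G) : ev φ (pt g) = φ g := by
  classical
  unfold ev pt
  rw [Finset.sum_eq_single g]
  · simp [MonoidAlgebra.coeff_single]
  · intro b _ hb
    simp [MonoidAlgebra.coeff_single, Finsupp.single_eq_of_ne hb, Finsupp.single_eq_of_ne (Ne.symm hb)]
  · simp

theorem ev_mono_fun {φ ψ : G → ℝ} (h : ∀ g, φ g ≤ ψ g) (x : Alg G) (hx : ∀ g, 0 ≤ x.coeff g) :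
    ev φ x ≤ ev ψ x :=
  Finset.sum_le_sum fun g _ => mul_le_mul_of_nonneg_left (h g) (hx g)

theorem ev_nonneg {φ : G → ℝ} (h : ∀ g, 0 ≤ φ g) (x : Alg G) (hx : ∀ g, 0 ≤ x.coeff g) :
    0 ≤ ev φ x :=
  Finset.sum_nonneg fun g _ => mul_nonneg (hx g) (h g)

theorem ev_const_mul (c : ℝ) (φ : G → ℝ) (x : Alg G) : ev (fun g => c * φ g) x = c * ev φ x := by
  simp only [ev, Finset.mul_sum]
  exact Finset.sum_congr rfl fun g _ => by ring

/-- a signed measure of total mass `0` -/
theorem two_ev_le_nrm {φ : G → ℝ} (h0 : ∀ g, 0 ≤ φ g) (h1 : ∀ g, φ g ≤ 1) (x : Alg G)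
    (hx : ∑ g, x.coeff g = 0) : 2 * ev φ x ≤ nrm x := by
  have : 2 * ev φ x = ∑ g, x.coeff g * (2 * φ g - 1) := by
    have : ∑ g, x.coeff g * (2 * φ g - 1) = 2 * ∑ g, x.coeff g * φ g - ∑ g, x.coeff g := by
      rw [Finset.mul_sum, ← Finset.sum_sub_distrib]
      exact Finset.sum_congr rfl fun g _ => by ring
    rw [this, hx, sub_zero]; rfl
  rw [this]
  refine Finset.sum_le_sum fun g _ => ?_
  calc x.coeff g * (2 * φ g - 1) ≤ |x.coeff g * (2 * φ g - 1)| := le_abs_self _
    _ = |x.coeff g| * |2 * φ g - 1| := abs_mul _ _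
    _ ≤ |x.coeff g| * 1 := by
        refine mul_le_mul_of_nonneg_left ?_ (abs_nonneg _)
        rw [abs_le]; constructor <;> linarith [h0 g, h1 g]
    _ = |x.coeff g| := mul_one _

end ev

section evmul
variable {G : Type} [Fintype G] [Group G]

theorem ev_one (φ : G → ℝ) : ev φ (1 : Alg G) = φ 1 := by
  rw [← pt_one]; exact ev_pt φ 1

theorem ev_mul (φ : G → ℝ) (x y : Alg G) :
    ev φ (x * y) = ev (fun g => ev (fun h => φ (g * h)) y) x := by
  classical
  conv_lhs => rw [eq_sum_pt x, eq_sum_pt y, Finset.sum_mul]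
  rw [ev_sum]
  unfold ev
  refine Finset.sum_congr rfl fun g _ => ?_
  change ev φ (x.coeff g • pt g * ∑ h, y.coeff h • pt h) = _
  rw [smul_mul_assoc, ev_smul, Finset.mul_sum, ev_sum]
  congr 1
  refine Finset.sum_congr rfl fun h _ => ?_
  rw [mul_smul_comm, ev_smul, pt_mul_pt, ev_pt]

theorem ev_mul' (φ : G → ℝ) (x y : Alg G) :
    ev φ (x * y) = ev (fun h => ev (fun g => φ (g * h)) x) y := by
  rw [ev_mul]
  unfold ev
  simp only [Finset.mul_sum]
  rw [Finset.sum_comm]
  refine Finset.sum_congr rfl fun h _ => Finset.sum_congr rfl fun g _ => by ring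

theorem coeff_eq_ev (x : Alg G) [DecidableEq G] (k : G) :
    x.coeff k = ev (fun g => if g = k then 1 else 0) x := by
  simp [ev]

end evmul

section perm
variable {V : Type} [Fintype V] [DecidableEq V]

theorem NN.add {x y : Alg (Perm V)} (hx : NN x) (hy : NN y) : NN (x + y) := fun g => by
  have := add_nonneg (hx g) (hy g)
  simpa using this

theorem NN.smul {x : Alg (Perm V)} {c : ℝ} (hc : 0 ≤ c) (hx : NN x) : NN (c • x) := fun g => by
  have := mul_nonneg hc (hx g)
  simpa using this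

theorem NN.pt (g : Perm V) : NN (pt g) := fun h => by
  rw [coeff_eq_ev, ev_pt]; split_ifs <;> norm_num

theorem NN.zero : NN (0 : Alg (Perm V)) := fun g => by simp

theorem NN.sum {ι : Type*} (s : Finset ι) (f : ι → Alg (Perm V)) (h : ∀ i ∈ s, NN (f i)) :
    NN (∑ i ∈ s, f i) := by
  classical
  induction s using Finset.induction_on with
  | empty => simpa using NN.zero
  | insert a s ha ih =>
    rw [Finset.sum_insert ha]
    exact NN.add (h a (Finset.mem_insert_self _ _))
      (ih fun i hi => h i (Finset.mem_insert_of_mem hi))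

theorem NN.one : NN (1 : Alg (Perm V)) := by rw [← pt_one]; exact NN.pt 1

theorem NN.mul {x y : Alg (Perm V)} (hx : NN x) (hy : NN y) : NN (x * y) := fun k => by
  rw [coeff_eq_ev, ev_mul]
  refine ev_nonneg (fun g => ev_nonneg (fun h => ?_) y hy) x hx
  split_ifs <;> norm_num

theorem NN.pow {x : Alg (Perm V)} (hx : NN x) : ∀ n : ℕ, NN (x ^ n)
  | 0 => by rw [pow_zero]; exact NN.one
  | n + 1 => by rw [pow_succ]; exact NN.mul (NN.pow hx n) hx

/-- total mass is `ev 1` -/
theorem mass_eq (x : Alg (Perm V)) : ∑ g, x.coeff g = ev (fun _ => 1) x := by simp [ev]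

theorem IsProb.mul {x y : Alg (Perm V)} (hx : IsProb x) (hy : IsProb y) : IsProb (x * y) := by
  refine ⟨NN.mul hx.1 hy.1, ?_⟩
  rw [mass_eq, ev_mul]
  have h1 : ev (fun _ : Perm V => (1:ℝ)) y = 1 := by rw [← mass_eq]; exact hy.2
  simp only [h1]
  rw [← mass_eq]; exact hx.2

theorem IsProb.one : IsProb (1 : Alg (Perm V)) :=
  ⟨NN.one, by rw [mass_eq, ev_one]⟩

theorem IsProb.pow {x : Alg (Perm V)} (hx : IsProb x) : ∀ n : ℕ, IsProb (x ^ n)
  | 0 => by rw [pow_zero]; exact IsProb.one
  | n + 1 => by rw [pow_succ]; exact IsProb.mul (IsProb.pow hx n) hx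

theorem nu_NN {w : V → V → ℝ} (hw : ∀ x y, 0 ≤ w x y) (ht : wtot w ≤ 1) : NN (nu w) := by
  unfold nu
  refine NN.add (NN.smul (by linarith) NN.one) (NN.smul (by norm_num) ?_)
  exact NN.sum _ _ fun x _ => NN.sum _ _ fun y _ => NN.smul (hw x y) (NN.pt _)

/-- one step of the one-card kernel -/
theorem ev_nu {w : V → V → ℝ} (hs : ∀ x y, w x y = w y x) (f : V → ℝ) (z : V) :
    ev (fun g : Perm V => f (g z)) (nu w) = pk w f z := by
  unfold nu
  rw [ev_add, ev_smul, ev_smul, ev_one, ev_sum]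
  have h1 : ∀ x, ev (fun g : Perm V => f (g z)) (∑ y, w x y • pt (swap x y)) =
      ∑ y, w x y * f (swap x y z) := fun x => by
    rw [ev_sum]
    exact Finset.sum_congr rfl fun y _ => by rw [ev_smul, ev_pt]
  simp only [h1]
  have h2 : ∑ x, ∑ y, w x y * f (swap x y z) =
      ∑ x, ∑ y, w x y * f z + 2 * ∑ y, w z y * (f y - f z) := by
    have h3 : ∀ x y, w x y * f (swap x y z) = w x y * f z +
        ((if x = z then w z y * (f y - f z) else 0) + (if y = z then w z x * (f x - f z) else 0)) := by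
      intro x y
      by_cases hx : x = z
      · subst hx
        by_cases hy : y = x
        · subst hy; simp
        · rw [if_pos rfl, if_neg hy, swap_apply_left]; ring
      · rw [if_neg hx]
        by_cases hy : y = z
        · subst hy
          rw [if_pos rfl, swap_apply_right, hs x y]; ring
        · rw [if_neg hy, swap_apply_of_ne_of_ne (Ne.symm hx) (Ne.symm hy)]; ring
    simp only [h3, Finset.sum_add_distrib]
    have e1 : ∑ x, ∑ y, (if x = z then w z y * (f y - f z) else 0) = ∑ y, w z y * (f y - f z) := by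
      rw [Finset.sum_comm]
      exact Finset.sum_congr rfl fun y _ => by simp
    have e2 : ∑ x, ∑ y, (if y = z then w z x * (f x - f z) else 0) = ∑ y, w z y * (f y - f z) := by
      exact Finset.sum_congr rfl fun x _ => by simp
    rw [e1, e2]; ring
  rw [h2]
  simp only [Perm.one_apply]
  unfold pk wtot
  simp only [mul_sub, Finset.sum_sub_distrib, ← Finset.sum_mul]
  ring

theorem ev_nu_inv {w : V → V → ℝ} (hs : ∀ x y, w x y = w y x) (f : V → ℝ) (z : V) :
    ev (fun g : Perm V => f (g⁻¹ z)) (nu w) = pk w f z := by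
  rw [← ev_nu hs f z]
  unfold nu
  simp only [ev_add, ev_smul, ev_one, ev_sum, ev_pt, swap_inv, inv_one]

theorem ev_nu_pow {w : V → V → ℝ} (hs : ∀ x y, w x y = w y x) (f : V → ℝ) :
    ∀ (s : ℕ) (z : V), ev (fun g : Perm V => f (g z)) (nu w ^ s) = (pk w)^[s] f z
  | 0, z => by rw [pow_zero, ev_one]; rfl
  | s + 1, z => by
    rw [pow_succ, ev_mul']
    have h : ∀ h : Perm V, ev (fun g : Perm V => f ((g * h) z)) (nu w ^ s) = (pk w)^[s] f (h z) :=
      fun h => ev_nu_pow hs f s (h z)
    simp only [h]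
    rw [ev_nu hs, Function.iterate_succ_apply']

theorem ev_nu_pow_inv {w : V → V → ℝ} (hs : ∀ x y, w x y = w y x) (f : V → ℝ) :
    ∀ (s : ℕ) (z : V), ev (fun g : Perm V => f (g⁻¹ z)) (nu w ^ s) = (pk w)^[s] f z
  | 0, z => by rw [pow_zero, ev_one]; simp
  | s + 1, z => by
    rw [pow_succ', ev_mul]
    have h : ∀ g : Perm V, ev (fun h : Perm V => f ((g * h)⁻¹ z)) (nu w ^ s) =
        (pk w)^[s] f (g⁻¹ z) := fun g => by
      rw [← ev_nu_pow_inv hs f s (g⁻¹ z)]
      simp only [mul_inv_rev, Perm.mul_apply]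
    simp only [h]
    rw [ev_nu_inv hs, Function.iterate_succ_apply']

/-- expansion of a power along the first use of the second letter -/
theorem pow_expand {A B R : Alg (Perm V)} (hA : NN A) (hB : NN B) (hR : NN R) : ∀ t : ℕ,
    ∃ N : Alg (Perm V), NN N ∧
      (A + B + R) ^ t = A ^ t + ∑ s ∈ range t, A ^ s * B * A ^ (t - 1 - s) + N
  | 0 => ⟨0, NN.zero, by simp⟩
  | t + 1 => by
    obtain ⟨N, hN, h⟩ := pow_expand hA hB hR t
    refine ⟨A ^ t * R + (∑ s ∈ range t, A ^ s * B * A ^ (t - 1 - s)) * (B + R) +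
      N * (A + B + R), ?_, ?_⟩
    · refine NN.add (NN.add (NN.mul (NN.pow hA t) hR) (NN.mul ?_ (NN.add hB hR)))
        (NN.mul hN (NN.add (NN.add hA hB) hR))
      exact NN.sum _ _ fun s _ => NN.mul (NN.mul (NN.pow hA s) hB) (NN.pow hA _)
    · rw [pow_succ, h, Finset.sum_range_succ]
      have e : ∑ s ∈ range t, A ^ s * B * A ^ (t + 1 - 1 - s) =
          (∑ s ∈ range t, A ^ s * B * A ^ (t - 1 - s)) * A := by
        rw [Finset.sum_mul]
        refine Finset.sum_congr rfl fun s hs => ?_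
        rw [Finset.mem_range] at hs
        rw [mul_assoc (A ^ s * B), ← pow_succ]
        congr 2; omega
      rw [e]
      have e2 : t + 1 - 1 - t = 0 := by omega
      rw [e2, pow_zero, mul_one, pow_succ]
      noncomm_ring

/-- number of permutations with a prescribed value -/
theorem card_fiber (b a : V) :
    (Fintype.card V : ℝ) * ((univ.filter fun g : Perm V => g b = a).card : ℝ) =
      (Fintype.card (Perm V) : ℝ) := by
  have h : ∀ a', (univ.filter fun g : Perm V => g b = a').card =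
      (univ.filter fun g : Perm V => g b = a).card := fun a' => by
    refine Finset.card_bij (fun g _ => swap a a' * g) ?_ ?_ ?_
    · intro g hg
      rw [Finset.mem_filter] at hg ⊢
      refine ⟨Finset.mem_univ _, ?_⟩
      rw [Perm.mul_apply, hg.2, swap_apply_right]
    · intro g _ g' _ h
      exact mul_left_cancel h
    · intro g hg
      rw [Finset.mem_filter] at hg
      refine ⟨swap a a' * g, ?_, ?_⟩
      · rw [Finset.mem_filter]
        refine ⟨Finset.mem_univ _, ?_⟩
        rw [Perm.mul_apply, hg.2, swap_apply_left]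
      · rw [← mul_assoc, swap_mul_self, one_mul]
  have h2 : Fintype.card (Perm V) = ∑ a' : V, (univ.filter fun g : Perm V => g b = a').card := by
    rw [← Finset.card_univ]
    exact Finset.card_eq_sum_card_fiberwise fun g _ => Finset.mem_coe.2 (Finset.mem_univ _)
  rw [h2, Finset.sum_congr rfl fun a' _ => h a', Finset.sum_const, smul_eq_mul, Finset.card_univ]
  push_cast; ring

theorem ev_unif (φ : Perm V → ℝ) :
    ev φ (unif univ) = (Fintype.card (Perm V) : ℝ)⁻¹ * ∑ g, φ g := by
  unfold unif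
  rw [ev_smul, ev_sum, Finset.card_univ]
  simp only [ev_pt]

theorem isProb_unif : ∑ g : Perm V, (unif (univ : Finset (Perm V))).coeff g = 1 := by
  rw [mass_eq, ev_unif]
  rw [Finset.sum_const, Finset.card_univ, nsmul_eq_mul, mul_one]
  exact inv_mul_cancel₀ (by exact_mod_cast Fintype.card_ne_zero)

end perm

end Mixl

open Mixl in
theorem MIXL : MIXL_stmt := by
  intro V _ _ w R p p' Z1 Z2 x1 x2 hs hw _ hwt _ hR hp hp1 hp' hY a b t hab ht κ hκ h1 h2
  classical
  set Y : Alg (Perm V) := (1 - p) • nu w + p' • pt (swap x1 x2) + R with hYdef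
  set E : Perm V → ℝ := fun σ => if ∃ z ∈ Z2, σ z ∈ Z1 then 1 else 0 with hE
  have hE0 : ∀ g, 0 ≤ E g := fun g => by simp only [hE]; split_ifs <;> norm_num
  have hE1 : ∀ g, E g ≤ 1 := fun g => by simp only [hE]; split_ifs <;> norm_num
  have hmass : ∑ g, (Y ^ t - unif univ).coeff g = 0 := by
    have e1 := (IsProb.pow hY t).2
    have e2 := isProb_unif (V := V)
    rw [mass_eq] at e1 e2 ⊢
    rw [ev_sub, e1, e2, sub_self]
  refine le_trans ?_ (two_ev_le_nrm hE0 hE1 _ hmass)
  rw [ev_sub]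
  -- upper bound for the uniform law
  have hU : ev E (unif univ) ≤ (Z1.card : ℝ) * Z2.card / Fintype.card V := by
    rw [ev_unif]
    have hn : (0:ℝ) < Fintype.card V := by
      have : 0 < Fintype.card V := Fintype.card_pos_iff.2 ⟨x1⟩
      exact_mod_cast this
    have hG : (0:ℝ) < Fintype.card (Perm V) := by
      have : 0 < Fintype.card (Perm V) := Fintype.card_pos_iff.2 ⟨1⟩
      exact_mod_cast this
    have hb : ∑ g, E g ≤ ∑ a ∈ Z1, ∑ b ∈ Z2, ((univ.filter fun g : Perm V => g b = a).card : ℝ) := by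
      have e : ∀ a b, ((univ.filter fun g : Perm V => g b = a).card : ℝ) =
          ∑ g : Perm V, if g b = a then 1 else 0 := fun a b => by
        rw [Finset.card_filter]; push_cast; rfl
      have e2 : ∑ a ∈ Z1, ∑ b ∈ Z2, ((univ.filter fun g : Perm V => g b = a).card : ℝ) =
          ∑ g : Perm V, ∑ a ∈ Z1, ∑ b ∈ Z2, (if g b = a then (1:ℝ) else 0) := by
        rw [Finset.sum_comm (s := univ)]
        refine Finset.sum_congr rfl fun a _ => ?_
        rw [Finset.sum_comm (s := univ)]
        exact Finset.sum_congr rfl fun b _ => e a b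
      rw [e2]
      refine Finset.sum_le_sum fun g _ => ?_
      simp only [hE]
      split_ifs with hg
      · obtain ⟨z, hz, hgz⟩ := hg
        refine le_trans ?_ (Finset.single_le_sum (f := fun a => ∑ b ∈ Z2, if g b = a then (1:ℝ) else 0)
          (fun a _ => Finset.sum_nonneg fun b _ => by split_ifs <;> norm_num) hgz)
        refine le_trans ?_ (Finset.single_le_sum (f := fun b => if g b = g z then (1:ℝ) else 0)
          (fun b _ => by split_ifs <;> norm_num) hz)
        simp
      · exact Finset.sum_nonneg fun a _ => Finset.sum_nonneg fun b _ => by split_ifs <;> norm_num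
    have hc : ∀ a b : V, ((univ.filter fun g : Perm V => g b = a).card : ℝ) =
        (Fintype.card (Perm V) : ℝ) / Fintype.card V := fun a b => by
      rw [eq_div_iff hn.ne', mul_comm]; exact card_fiber b a
    calc (Fintype.card (Perm V) : ℝ)⁻¹ * ∑ g, E g
        ≤ (Fintype.card (Perm V) : ℝ)⁻¹ *
          ∑ a ∈ Z1, ∑ b ∈ Z2, ((univ.filter fun g : Perm V => g b = a).card : ℝ) :=
          mul_le_mul_of_nonneg_left hb (inv_nonneg.2 hG.le)
      _ = (Z1.card : ℝ) * Z2.card / Fintype.card V := by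
          simp only [hc, Finset.sum_const, nsmul_eq_mul]
          field_simp
  -- lower bound for the walk
  have hX : NN (nu w) := nu_NN hw hwt
  have hkey : ∀ s r : ℕ, κ ≤ (pk w)^[s] (fun x => if x ∈ Z1 then 1 else 0) x1 →
      κ ≤ (pk w)^[r] (fun x => if x ∈ Z2 then 1 else 0) x2 →
      κ ^ 2 ≤ ev E (nu w ^ s * pt (swap x1 x2) * nu w ^ r) := by
    intro s r hs1 hr1
    rw [mul_assoc, ev_mul, pow_two]
    have hr2 : ∀ g : Perm V, (if g x1 ∈ Z1 then (1:ℝ) else 0) *
        ((pk w)^[r] (fun x => if x ∈ Z2 then 1 else 0) x2) ≤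
        ev (fun h => E (g * h)) (pt (swap x1 x2) * nu w ^ r) := by
      intro g
      rw [ev_mul, ev_pt, ← ev_nu_pow_inv hs, ← ev_const_mul]
      refine ev_mono_fun (fun h => ?_) _ (NN.pow hX r)
      by_cases hg : g x1 ∈ Z1
      · rw [if_pos hg, one_mul]
        by_cases hh : h⁻¹ x2 ∈ Z2
        · rw [if_pos hh]
          have : ∃ z ∈ Z2, (g * (swap x1 x2 * h)) z ∈ Z1 := by
            refine ⟨h⁻¹ x2, hh, ?_⟩
            have e1 : h (h⁻¹ x2) = x2 := by simp
            rw [Perm.mul_apply, Perm.mul_apply, e1, swap_apply_right]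
            exact hg
          simp only [hE]
          rw [if_pos this]
        · rw [if_neg hh]; exact hE0 _
      · rw [if_neg hg, zero_mul]; exact hE0 _
    refine le_trans ?_ (ev_mono_fun hr2 _ (NN.pow hX s))
    have : ev (fun g : Perm V => (if g x1 ∈ Z1 then (1:ℝ) else 0) *
        ((pk w)^[r] (fun x => if x ∈ Z2 then 1 else 0) x2)) (nu w ^ s) =
        ((pk w)^[r] (fun x => if x ∈ Z2 then 1 else 0) x2) *
        ((pk w)^[s] (fun x => if x ∈ Z1 then 1 else 0) x1) := by
      rw [← ev_nu_pow hs (fun x => if x ∈ Z1 then (1:ℝ) else 0) s x1, ← ev_const_mul]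
      congr 1
      funext g
      ring
    rw [this]
    exact mul_le_mul hr1 hs1 hκ (hκ.trans hr1)
  have hL : ((t - a - b : ℕ) : ℝ) * (p' * (1 - p) ^ (t - 1) * κ ^ 2) ≤ ev E (Y ^ t) := by
    have hp2 : 0 ≤ 1 - p := by linarith
    obtain ⟨N, hN, hexp⟩ := pow_expand (NN.smul hp2 hX) (NN.smul hp' (NN.pt (swap x1 x2))) hR t
    rw [← hYdef] at hexp
    rw [hexp, ev_add, ev_add, ev_sum]
    have hN0 : 0 ≤ ev E N := ev_nonneg hE0 N hN
    have hA0 : 0 ≤ ev E (((1 - p) • nu w) ^ t) := ev_nonneg hE0 _ (NN.pow (NN.smul hp2 hX) t)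
    have hterm : ∀ s ∈ range t, s ∈ Finset.Ico b (t - a) → p' * (1 - p) ^ (t - 1) * κ ^ 2 ≤
        ev E (((1 - p) • nu w) ^ s * (p' • pt (swap x1 x2)) * ((1 - p) • nu w) ^ (t - 1 - s)) := by
      intro s hs1 hs2
      rw [Finset.mem_range] at hs1
      rw [Finset.mem_Ico] at hs2
      have e : ((1 - p) • nu w) ^ s * (p' • pt (swap x1 x2)) * ((1 - p) • nu w) ^ (t - 1 - s) =
          (p' * (1 - p) ^ (t - 1)) • (nu w ^ s * pt (swap x1 x2) * nu w ^ (t - 1 - s)) := by
        rw [smul_pow, smul_pow]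
        simp only [smul_mul_assoc, mul_smul_comm, smul_smul]
        congr 1
        have : t - 1 = s + (t - 1 - s) := by omega
        conv_rhs => rw [this, pow_add]
        ring
      rw [e, ev_smul]
      refine mul_le_mul_of_nonneg_left (hkey s (t - 1 - s) (h1 s (by omega)) (h2 _ (by omega))) ?_
      positivity
    have hsub : Finset.Ico b (t - a) ⊆ range t := fun s hs => by
      rw [Finset.mem_Ico] at hs; rw [Finset.mem_range]; omega
    have hpos : ∀ s ∈ range t, 0 ≤
        ev E (((1 - p) • nu w) ^ s * (p' • pt (swap x1 x2)) * ((1 - p) • nu w) ^ (t - 1 - s)) :=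
      fun s _ => ev_nonneg hE0 _ (NN.mul (NN.mul (NN.pow (NN.smul hp2 hX) s)
        (NN.smul hp' (NN.pt (swap x1 x2)))) (NN.pow (NN.smul hp2 hX) _))
    have hsum : ((t - a - b : ℕ) : ℝ) * (p' * (1 - p) ^ (t - 1) * κ ^ 2) ≤
        ∑ s ∈ range t,
        ev E (((1 - p) • nu w) ^ s * (p' • pt (swap x1 x2)) * ((1 - p) • nu w) ^ (t - 1 - s)) := by
      refine le_trans ?_ (Finset.sum_le_sum_of_subset_of_nonneg hsub fun s hs _ => hpos s hs)
      have : ((t - a - b : ℕ) : ℝ) * (p' * (1 - p) ^ (t - 1) * κ ^ 2) =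
          ∑ s ∈ Finset.Ico b (t - a), p' * (1 - p) ^ (t - 1) * κ ^ 2 := by
        rw [Finset.sum_const, Nat.card_Ico, nsmul_eq_mul]
      rw [this]
      exact Finset.sum_le_sum fun s hs => hterm s (hsub hs) hs
    linarith
  linarith

end H72C
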