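import Pool.Agent.Helper72_Cut.AsmStmts
import Pool.Agent.Helper62_Cut.MIXL

/-!
# Squad MP_1dbb29_pr : modules Z4 ROOT, Z6 UPPER, Z7 FUP, Z8 FLOW
-/

set_option autoImplicit false

namespace H72C

open Finset Equiv Pool.Agent.Helper91_CW

section root

theorem exp_small {x : ℝ} (hx : x ≤ -1) : Real.exp x ≤ 1 / 2 := by
  have h1 : Real.exp x ≤ Real.exp (-1) := Real.exp_le_exp.2 hx
  have h2 : (2:ℝ) ≤ Real.exp 1 := by
    have := Real.add_one_le_exp (1:ℝ); linarith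
  have h3 : Real.exp (-1) ≤ 1 / 2 := by
    rw [Real.exp_neg, inv_eq_one_div]
    exact one_div_le_one_div_of_le (by norm_num) h2
  linarith

theorem ROOT (h1 : RATE_stmt) (h2 : TIME_stmt) (h3 : LADL_stmt) : ROOT_stmt := by
  intro R hR hR13 P hP
  obtain ⟨⟨a1, a2⟩, _, _, ⟨a3, a4⟩, _, _, _, a5, _, a6, a7, a8⟩ := h1 R hR hR13 P hP
  obtain ⟨_, _, _, b1, b2⟩ := h2 R hR hR13 P hP
  have hMn : (2:ℝ) ≤ P.Mn := by exact_mod_cast P.hMn
  have hnn : 0 < nn P := by linarith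
  have hnt : 0 < nt P := by nlinarith
  have hM0 : (3:ℝ) ≤ P.M0 := by exact_mod_cast P.hM0
  have hM0' : (0:ℝ) < P.M0 := by linarith
  have hRr : (10:ℝ) ^ 13 ≤ R := by exact_mod_cast hR13
  have hR0 : (0:ℝ) < R := by linarith
  have hE : EE P = 8 * nt P * P.M0 / (15 * 401000) := rfl
  have hEpos : 0 < EE P := by linarith
  -- lower bound of the rates
  obtain ⟨u, hu⟩ : ∃ u, u = 900 * (R:ℝ) ^ 2 / (nt P * P.M0) := ⟨_, rfl⟩
  have hupos : 0 < u := by rw [hu]; positivity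
  have hlow : ∀ g j, j ≤ P.m g → u ≤ UP P g j := by
    intro g j hj
    rcases hj.lt_or_eq with hj | hj
    · refine le_trans ?_ (a5 g j hj)
      have hb : (400 * (R:ℝ) ^ 2) ≤ bb R g j := by exact_mod_cast bb_lower (by omega : 1 ≤ R) g j
      have h9 : (9:ℝ) / R ≤ 1 / 10 := by
        rw [div_le_div_iff₀ hR0 (by norm_num)]; linarith
      have h9' : (0:ℝ) < 9 / R := by positivity
      rw [hu, div_le_div_iff₀ (by positivity) (by positivity)]
      have hR2 : (0:ℝ) < (R:ℝ) ^ 2 := by positivity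
      have e1 : 900 * (R:ℝ) ^ 2 * (2 * (1 + 9 / R)) ≤ 5 * bb R g j := by nlinarith
      calc 900 * (R:ℝ) ^ 2 * (2 * nt P * P.M0 * (1 + 9 / R))
          = (900 * (R:ℝ) ^ 2 * (2 * (1 + 9 / R))) * (nt P * P.M0) := by ring
        _ ≤ (5 * bb R g j) * (nt P * P.M0) := by gcongr
    · subst hj
      refine le_trans ?_ (a6 g).1
      have hM : (1800 * (R:ℝ) ^ 2) ≤ P.M0 := by
        have : 1800 * R ^ 2 ≤ P.M0 := by
          have e : P.M0 = R * Ww R := by rw [hP]; rfl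
          rw [e]
          have hW : 1800 * R ≤ Ww R := by
            unfold Ww
            have : R ≤ 4 ^ R := (Nat.lt_pow_self (by norm_num)).le
            nlinarith
          calc 1800 * R ^ 2 = R * (1800 * R) := by ring
            _ ≤ R * Ww R := Nat.mul_le_mul_left _ hW
        exact_mod_cast this
      rw [hu, div_le_div_iff₀ (by positivity) (by positivity)]
      nlinarith
  obtain ⟨lam, hlam⟩ : ∃ lam, lam = 3 / 4 * (1 / 10 ^ 6) * u := ⟨_, rfl⟩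
  have hlampos : 0 < lam := by rw [hlam]; positivity
  have hl : ∀ g, ∀ j, j ≤ P.m g → lam * (4 / 3) ≤ (1 / 10 ^ 6) * UP P g j := by
    intro g j hj
    have := hlow g j hj
    rw [hlam]; nlinarith
  have hlE : 100 ≤ lam * EE P := by
    rw [hlam, hu, hE]
    have : 3 / 4 * (1 / 10 ^ 6) * (900 * (R:ℝ) ^ 2 / (nt P * P.M0)) * (8 * nt P * P.M0 / (15 * 401000)) =
        (3 / 4 * (1 / 10 ^ 6) * 900 * 8 / (15 * 401000)) * (R:ℝ) ^ 2 := by
      field_simp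
    rw [this]
    have : (10:ℝ) ^ 26 ≤ (R:ℝ) ^ 2 := by
      calc (10:ℝ) ^ 26 = (10 ^ 13) ^ 2 := by norm_num
        _ ≤ _ := by gcongr
    calc (100:ℝ) ≤ (3 / 4 * (1 / 10 ^ 6) * 900 * 8 / (15 * 401000)) * 10 ^ 26 := by norm_num
      _ ≤ _ := by gcongr
  constructor
  · intro s hs
    have h := h3 (UP P false) (P.m false) lam (1 / 10 ^ 6) (a7 false) hlampos (by norm_num) (by norm_num)
      (hl false) s
    have h4 : lam * ((1 + 2 * (1 / 10 ^ 6)) * s - SS (UP P false) (P.m false)) ≤ -1 := by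
      have e1 : (1 + 2 * (1 / 10 ^ 6)) * (s:ℝ) - SS (UP P false) (P.m false) ≤ - (3 / 100) * EE P := by
        nlinarith
      calc _ ≤ lam * (- (3 / 100) * EE P) := mul_le_mul_of_nonneg_left e1 hlampos.le
        _ = - (3 / 100) * (lam * EE P) := by ring
        _ ≤ -1 := by linarith
    have := exp_small h4
    linarith
  · intro s hs
    have h := h3 (UP P true) (P.m true) lam (1 / 10 ^ 6) (a7 true) hlampos (by norm_num) (by norm_num)
      (hl true) s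
    have h4 : lam * ((1 + 2 * (1 / 10 ^ 6)) * s - SS (UP P true) (P.m true)) ≤ -1 := by
      have e1 : (1 + 2 * (1 / 10 ^ 6)) * (s:ℝ) - SS (UP P true) (P.m true) ≤ - (1 / 100) * EE P := by
        nlinarith
      calc _ ≤ lam * (- (1 / 100) * EE P) := mul_le_mul_of_nonneg_left e1 hlampos.le
        _ = - (1 / 100) * (lam * EE P) := by ring
        _ ≤ -1 := by linarith
    have := exp_small h4
    linarith

end root

open Classical in
theorem UPPER (hUB : UBStatement) (hW : WTS_stmt) (hT : TWIN_stmt)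
    (u1 : U1_stmt) (u2 : U2_stmt) (u3 : U3_stmt) (u4 : U4_stmt) (u5 : U5_stmt) (u67 : U67_stmt)
    (h1 : RATE_stmt) : UPPER_stmt := by
  intro R hR hR13 P hP
  obtain ⟨w1, w2, w3, w4, w5, w6, w7, w8, w9, w10, w11, _⟩ := hW P
  obtain ⟨⟨a1, a2⟩, a3, _⟩ := h1 R hR hR13 P hP
  have v1 := u1 R hR hR13 P hP
  have v2 := u2 R hR hR13 P hP
  have v3 := u3 R hR hR13 P hP
  have v4 := u4 R hR hR13 P hP
  have v5 := u5 R hR hR13 P hP
  obtain ⟨v6, v7⟩ := u67 R hR hR13 P hP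
  have hr0 : 1 ≤ R * P.M0 * 4 ^ Jj R := by
    have := P.hM0
    have h4 : 1 ≤ 4 ^ Jj R := Nat.one_le_pow _ _ (by norm_num)
    have h5 : 1 ≤ R * P.M0 := Nat.mul_pos (by omega) (by omega)
    exact Nat.mul_pos h5 h4
  have hsum : T1 P / 2 + (T1 P - T1 P / 2) = T1 P := by omega
  have key := hUB (Hx P) (Fin P.Mn) (by rw [Fintype.card_fin]; have := P.hMn; omega)
    (by rw [Fintype.card_fin]; exact a3) (wH P) (qH P) (rH P) w5 w6 w7 w8 w9 w10
    (cellN P) (Upp P R) (by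
      intro x hx x' hx' hc
      have hl : 1 ≤ lv P x := by
        have : 4 ^ R ≤ lv P x := (Finset.mem_filter.1 hx).2
        exact (Nat.one_le_pow _ _ (by norm_num)).trans this
      obtain ⟨_, _, _, t1, t2⟩ := hT P x x' hl hc
      exact ⟨t1, t2⟩)
    (R * P.M0 * 4 ^ Jj R) (4 ^ (5 * 4 ^ R + 4 ^ R / 16)) hr0 (by positivity) (T1 P / 2)
    (T1 P - T1 P / 2)
  rw [hsum] at key
  rw [w11]
  have e : (unif univ : Alg (Perm (Vx P))) = UU (Hx P) (Fin P.Mn) := by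
    unfold UU
    rfl
  rw [e]
  refine key.trans ?_
  unfold kwP at v2 v5
  unfold mwP at v2 v3 v6 v7
  rw [mul_add 2, mul_add 2]
  linarith

namespace Mixl
variable {V : Type} [Fintype V] [DecidableEq V]

theorem isProb_nu {w : V → V → ℝ} (hw : ∀ x y, 0 ≤ w x y) (ht : wtot w ≤ 1) : IsProb (nu w) := by
  refine ⟨nu_NN hw ht, ?_⟩
  rw [mass_eq]
  unfold nu
  rw [ev_add, ev_smul, ev_smul, ev_one, ev_sum]
  have h1 : ∀ x, ev (fun _ : Perm V => (1:ℝ)) (∑ y, w x y • pt (swap x y)) = ∑ y, w x y := fun x => by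
    rw [ev_sum]
    exact Finset.sum_congr rfl fun y _ => by rw [ev_smul, ev_pt, mul_one]
  simp only [h1]
  unfold wtot
  ring

theorem isProb_half (g h : Perm V) : IsProb ((1 / 2 : ℝ) • (pt g + pt h) : Alg (Perm V)) := by
  refine ⟨NN.smul (by norm_num) (NN.add (NN.pt g) (NN.pt h)), ?_⟩
  rw [mass_eq, ev_smul, ev_add, ev_pt, ev_pt]
  norm_num

theorem isProb_mix {X R : Alg (Perm V)} (hX : IsProb X) (hR : IsProb R) {p : ℝ} (hp : 0 ≤ p)
    (hp1 : p ≤ 1) : IsProb ((1 - p) • X + p • R) := by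
  refine ⟨NN.add (NN.smul (by linarith) hX.1) (NN.smul hp hR.1), ?_⟩
  have e1 := hX.2
  have e2 := hR.2
  rw [mass_eq] at e1 e2 ⊢
  rw [ev_add, ev_smul, ev_smul, e1, e2]
  ring

theorem mix_eq (p : ℝ) (x a b : Alg (Perm V)) :
    (1 - 2 * p) • x + (2 * p) • ((1 / 2 : ℝ) • (a + b)) = (1 - 2 * p) • x + p • a + p • b := by
  module

end Mixl

open Mixl in
theorem FUP (hU : MIXU_stmt) (hD : DEC_stmt) (hW : WTS_stmt) (h1 : RATE_stmt) (h6 : UPPER_stmt) :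
    FUP_stmt := by
  intro R hR hR13 P hP
  obtain ⟨w1, w2, w3, w4, _, _, _, _, _, _, _, w12, w13, w14, w15, w16⟩ := hW P
  obtain ⟨⟨a1, a2⟩, _, _, ⟨a3, a4⟩, ⟨a5, a6⟩, _, _, _, _, _, _, a8⟩ := h1 R hR hR13 P hP
  obtain ⟨x1, x2, x1', x2', _, _, _, _, hdec⟩ := hD P
  have hX : IsProb (nu (wX P)) := isProb_nu w13 w16
  have hRR := isProb_half (swap (Sum.inl x1 : Vx P) (Sum.inl x2)) (swap (Sum.inl x1' : Vx P) (Sum.inl x2'))
  have key := hU (Vx P) (nu (wX P)) _ (2 * p1 P) hX hRR (by linarith) (by linarith) (T1 P)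
  have e : nu (wG (gr P)) = (1 - 2 * p1 P) • nu (wX P) + (2 * p1 P) • ((1 / 2 : ℝ) •
      (pt (swap (Sum.inl x1 : Vx P) (Sum.inl x2)) + pt (swap (Sum.inl x1' : Vx P) (Sum.inl x2')))) := by
    rw [hdec, mix_eq]
  rw [e]
  refine key.trans ?_
  have hup := h6 R hR hR13 P hP
  have hM0 : (3:ℝ) ≤ P.M0 := by exact_mod_cast P.hM0
  have hE : EE P = 8 * nt P * P.M0 / (15 * 401000) := rfl
  have hT1 : (T1 P : ℝ) ≤ 2005.3 * EE P := by
    have h := Nat.ceil_lt_add_one (show 0 ≤ 2005.2 * EE P by linarith)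
    have : (T1 P : ℝ) < 2005.2 * EE P + 1 := h
    linarith
  have hpT : 2 * p1 P * T1 P ≤ 0.006 := by
    have h2 : EE P ≤ 8 * nn P * P.M0 / (15 * 401000) := by
      rw [hE]; gcongr
    calc 2 * p1 P * T1 P ≤ 2 * (1 / (nn P * P.M0)) * (2005.3 * (8 * nn P * P.M0 / (15 * 401000))) := by
          gcongr
          exact hT1.trans (by linarith)
      _ = 2 * 2005.3 * 8 / (15 * 401000) := by
          have : nn P ≠ 0 := w1.ne'
          have : (P.M0 : ℝ) ≠ 0 := by positivity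
          field_simp
      _ ≤ 0.006 := by norm_num
  have hpow : 1 - 0.006 ≤ (1 - 2 * p1 P) ^ T1 P := by
    have := one_add_mul_le_pow (show (-2:ℝ) ≤ -(2 * p1 P) by linarith) (T1 P)
    have e2 : (1:ℝ) + -(2 * p1 P) = 1 - 2 * p1 P := by ring
    rw [e2] at this
    nlinarith
  have hpow1 : (1 - 2 * p1 P) ^ T1 P ≤ 1 := pow_le_one₀ (by linarith) (by linarith)
  have hn0 : 0 ≤ nrm (nu (wX P) ^ T1 P - unif univ) := nrm_nonneg _
  have h7 : (1 - 2 * p1 P) ^ T1 P * nrm (nu (wX P) ^ T1 P - unif univ) ≤ 1 * (1 / 2) :=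
    mul_le_mul hpow1 hup hn0 (by norm_num)
  linarith

/-- number of vertices of one gadget -/
theorem card_gadget (hS : SUM_stmt) (P : Par) (g : Bool) :
    ((univ.filter fun x : Hx P => gd P x = g).card : ℝ) ≤ P.M0 * 4 ^ (P.m g + 1) := by
  have h := hS P (fun g' _ => if g' = g then 1 else 0)
  have e1 : ((univ.filter fun x : Hx P => gd P x = g).card : ℝ) =
      ∑ x : Hx P, (if gd P x = g then 1 else 0) := by
    rw [Finset.card_filter]; push_cast; rfl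
  rw [e1]
  refine h.le.trans ?_
  have e2 : ∑ g' : Bool, ∑ j ∈ range (P.m g' + 1), (P.M0 : ℝ) * 4 ^ j * (if g' = g then 1 else 0) =
      ∑ j ∈ range (P.m g + 1), (P.M0 : ℝ) * 4 ^ j := by
    rw [Fintype.sum_bool]
    cases g <;> simp
  rw [e2, ← Finset.mul_sum]
  refine mul_le_mul_of_nonneg_left ?_ (by positivity)
  rw [geom_sum_eq (by norm_num)]
  have : (0:ℝ) ≤ 4 ^ (P.m g + 1) := by positivity
  rw [div_le_iff₀ (by norm_num)]
  linarith

open Mixl in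
theorem FLOW (hM : MIXL_stmt) (hD : DEC_stmt) (hW : WTS_stmt) (h1 : RATE_stmt) (hF : FREE_stmt)
    (hL : LEV_stmt) (hRt : ROOT_stmt) (hS : SUM_stmt) (h0 : SIZE_stmt) : FLOW_stmt := by
  classical
  intro R hR hR13 P hP
  obtain ⟨w1, w2, w3, w4, _, _, _, _, _, _, _, w12, w13, w14, w15, w16⟩ := hW P
  obtain ⟨⟨a1, a2⟩, _, _, ⟨a3, a4⟩, ⟨a5, a6⟩, _, _, _, _, _, _, a8⟩ := h1 R hR hR13 P hP
  obtain ⟨x1, x2, x1', x2', g1, g2, l1, l2, hdec⟩ := hD P
  obtain ⟨r1, r2⟩ := hRt R hR hR13 P hP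
  obtain ⟨z1, z2, z3, z4, z5, z6⟩ := h0 R hR13
  have hM0 : (3:ℝ) ≤ P.M0 := by exact_mod_cast P.hM0
  have hE : EE P = 8 * nt P * P.M0 / (15 * 401000) := rfl
  have hEpos : 0 < EE P := by linarith
  set Z1 : Finset (Vx P) := (univ.filter fun x : Hx P => gd P x = false).map
    ⟨Sum.inl, Sum.inl_injective⟩ with hZ1
  set Z2 : Finset (Vx P) := (univ.filter fun x : Hx P => gd P x = true).map
    ⟨Sum.inl, Sum.inl_injective⟩ with hZ2
  -- one-card lower bounds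
  have hone : ∀ (g : Bool) (x : Hx P) (Z : Finset (Vx P)), gd P x = g → lv P x = 0 →
      Z = (univ.filter fun x : Hx P => gd P x = g).map ⟨Sum.inl, Sum.inl_injective⟩ →
      ∀ s : ℕ, 1 / 2 ≤ bIt (UP P g) (P.m g) 0 (fun _ => 1) s 0 →
      1 / 2 ≤ (pk (wX P))^[s] (fun y => if y ∈ Z then 1 else 0) (Sum.inl x) := by
    intro g x Z hg hl hZ s hs
    have h2 := hF P (fun x => if gd P x = g then 1 else 0)
      (fun x => by split_ifs <;> norm_num) s x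
    have h3 := hL P (fun g' _ => if g' = g then 1 else 0) s x
    rw [hg, hl] at h3
    simp only [if_true] at h3
    rw [h3] at h2
    have e : (fun y : Vx P => Sum.elim (fun x : Hx P => if gd P x = g then (1:ℝ) else 0) (fun _ => 0) y) =
        (fun y => if y ∈ Z then 1 else 0) := by
      funext y
      rw [hZ]
      rcases y with y | y
      · simp
      · simp
    rw [e] at h2
    exact hs.trans h2
  -- floors
  obtain ⟨F1, hF1⟩ : ∃ F1 : ℕ, F1 = ⌊1002.45 * EE P⌋₊ := ⟨_, rfl⟩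
  obtain ⟨F2, hF2⟩ : ∃ F2 : ℕ, F2 = ⌊1002.97 * EE P⌋₊ := ⟨_, rfl⟩
  have f1 : (F1 : ℝ) ≤ 1002.45 * EE P := by rw [hF1]; exact Nat.floor_le (by positivity)
  have f2 : (F2 : ℝ) ≤ 1002.97 * EE P := by rw [hF2]; exact Nat.floor_le (by positivity)
  have f1' : 1002.45 * EE P - 1 < F1 := by rw [hF1]; exact Nat.sub_one_lt_floor _
  have f2' : 1002.97 * EE P - 1 < F2 := by rw [hF2]; exact Nat.sub_one_lt_floor _
  have ft : (T2 P : ℝ) ≤ 2005.4 * EE P := Nat.floor_le (by positivity)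
  have ft' : 2005.4 * EE P - 1 < T2 P := Nat.sub_one_lt_floor _
  have k1 : F1 + 1 ≤ T2 P := by
    have : (F1 : ℝ) + 1 < T2 P := by linarith
    have : ((F1 + 1 : ℕ) : ℝ) < T2 P := by push_cast; exact this
    exact (Nat.cast_lt.1 this).le
  have k2 : F2 + 1 ≤ T2 P := by
    have : (F2 : ℝ) + 1 < T2 P := by linarith
    have : ((F2 + 1 : ℕ) : ℝ) < T2 P := by push_cast; exact this
    exact (Nat.cast_lt.1 this).le
  have k3 : T2 P ≤ F1 + F2 + 2 := by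
    have : (T2 P : ℝ) < F1 + F2 + 2 := by linarith
    have : (T2 P : ℝ) < ((F1 + F2 + 2 : ℕ) : ℝ) := by push_cast; exact this
    exact (Nat.cast_lt.1 this).le
  have hprob : IsProb ((1 - 2 * p1 P) • nu (wX P) + p1 P • pt (swap (Sum.inl x1 : Vx P) (Sum.inl x2)) +
      p1 P • pt (swap (Sum.inl x1' : Vx P) (Sum.inl x2'))) := by
    have h2 := isProb_mix (isProb_nu w13 w16) (isProb_half (swap (Sum.inl x1 : Vx P) (Sum.inl x2))
      (swap (Sum.inl x1' : Vx P) (Sum.inl x2'))) (p := 2 * p1 P) (by linarith) (by linarith)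
    have e : (1 - 2 * p1 P) • nu (wX P) + (2 * p1 P) • ((1 / 2 : ℝ) •
      (pt (swap (Sum.inl x1 : Vx P) (Sum.inl x2)) + pt (swap (Sum.inl x1' : Vx P) (Sum.inl x2')))) =
      (1 - 2 * p1 P) • nu (wX P) + p1 P • pt (swap (Sum.inl x1 : Vx P) (Sum.inl x2)) +
      p1 P • pt (swap (Sum.inl x1' : Vx P) (Sum.inl x2')) := mix_eq _ _ _ _
    rw [e] at h2
    exact h2
  have key := hM (Vx P) (wX P) (p1 P • pt (swap (Sum.inl x1' : Vx P) (Sum.inl x2'))) (2 * p1 P) (p1 P)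
    Z1 Z2 (Sum.inl x1) (Sum.inl x2) w12 w13 w14 w16 w15 (NN.smul w2.le (NN.pt _)) (by linarith)
    (by linarith) w2.le hprob (T2 P - 1 - F1) (T2 P - 1 - F2) (T2 P) (by omega) (by omega) (1 / 2)
    (by norm_num)
    (fun s hs => hone false x1 Z1 g1 l1 hZ1 s (r1 s (by
      have : s ≤ F1 := by omega
      have : (s:ℝ) ≤ F1 := by exact_mod_cast this
      linarith)))
    (fun s hs => hone true x2 Z2 g2 l2 hZ2 s (r2 s (by
      have : s ≤ F2 := by omega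
      have : (s:ℝ) ≤ F2 := by exact_mod_cast this
      linarith)))
  rw [← hdec] at key
  refine le_trans ?_ key
  -- numbers
  have hnum : T2 P - (T2 P - 1 - F1) - (T2 P - 1 - F2) = F1 + F2 + 2 - T2 P := by omega
  rw [hnum]
  have hcount : 0.02 * EE P ≤ ((F1 + F2 + 2 - T2 P : ℕ) : ℝ) := by
    rw [Nat.cast_sub k3]; push_cast; linarith
  have hpow : 1 - 0.006 ≤ (1 - 2 * p1 P) ^ (T2 P - 1) := by
    have := one_add_mul_le_pow (show (-2:ℝ) ≤ -(2 * p1 P) by linarith) (T2 P - 1)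
    have e2 : (1:ℝ) + -(2 * p1 P) = 1 - 2 * p1 P := by ring
    rw [e2] at this
    have h3 : ((T2 P - 1 : ℕ) : ℝ) ≤ T2 P := by exact_mod_cast Nat.sub_le _ _
    have hpT : 2 * p1 P * T2 P ≤ 0.006 := by
      have h2 : EE P ≤ 8 * nn P * P.M0 / (15 * 401000) := by
        rw [hE]; gcongr
      calc 2 * p1 P * T2 P ≤ 2 * (1 / (nn P * P.M0)) * (2005.4 * (8 * nn P * P.M0 / (15 * 401000))) := by
            gcongr
            exact ft.trans (by linarith)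
        _ = 2 * 2005.4 * 8 / (15 * 401000) := by
            have : nn P ≠ 0 := w1.ne'
            have : (P.M0 : ℝ) ≠ 0 := by positivity
            field_simp
        _ ≤ 0.006 := by norm_num
    have h4 : 2 * p1 P * ((T2 P - 1 : ℕ) : ℝ) ≤ 2 * p1 P * T2 P :=
      mul_le_mul_of_nonneg_left h3 (by linarith)
    linarith
  have hpE : 2.4 / 10 ^ 8 ≤ 0.02 * EE P * p1 P := by
    have h2 : 8 * (0.999 * nn P) * P.M0 / (15 * 401000) ≤ EE P := by
      rw [hE]; gcongr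
    calc 2.4 / 10 ^ 8 ≤ (0.02 * (8 * 0.999 / (15 * 401000)) / 1.1 : ℝ) := by norm_num
      _ = 0.02 * (8 * (0.999 * nn P) * P.M0 / (15 * 401000)) * (1 / (1.1 * nn P * P.M0)) := by
          have : nn P ≠ 0 := w1.ne'
          have : (P.M0 : ℝ) ≠ 0 := by positivity
          field_simp
      _ ≤ 0.02 * EE P * p1 P := by gcongr
  have hmain : 5.9 / 10 ^ 9 ≤ ((F1 + F2 + 2 - T2 P : ℕ) : ℝ) *
      (p1 P * (1 - 2 * p1 P) ^ (T2 P - 1) * (1 / 2) ^ 2) := by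
    calc (5.9 / 10 ^ 9 : ℝ) ≤ (2.4 / 10 ^ 8) * ((1 - 0.006) * (1 / 2) ^ 2) := by norm_num
      _ ≤ (0.02 * EE P * p1 P) * ((1 - 2 * p1 P) ^ (T2 P - 1) * (1 / 2) ^ 2) := by
          gcongr
      _ = (0.02 * EE P) * (p1 P * (1 - 2 * p1 P) ^ (T2 P - 1) * (1 / 2) ^ 2) := by ring
      _ ≤ _ := by
          have : 0 ≤ (1 - 2 * p1 P) ^ (T2 P - 1) := by linarith
          gcongr
  have hcard : (Z1.card : ℝ) * Z2.card / Fintype.card (Vx P) ≤ 4.8 / 10 ^ 9 := by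
    have c1 : (Z1.card : ℝ) ≤ P.M0 * 4 ^ (P.m false + 1) := by
      rw [hZ1, Finset.card_map]; exact card_gadget hS P false
    have c2 : (Z2.card : ℝ) ≤ P.M0 * 4 ^ (P.m true + 1) := by
      rw [hZ2, Finset.card_map]; exact card_gadget hS P true
    have m1 : P.m false = Jj R := by rw [hP]; simp [PR, mt]
    have m2 : P.m true = Jj R + 3 * 4 ^ R := by rw [hP]; simp [PR, mt]
    have m3 : P.Mn = 4 ^ (5 * 4 ^ R) := by rw [hP]; rfl
    have m4 : P.M0 ≤ 4 ^ (4 ^ R / 10 ^ 5) := by rw [hP]; exact z5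
    rw [m1] at c1
    rw [m2] at c2
    have hn : ((4:ℝ) ^ (5 * 4 ^ R)) ≤ Fintype.card (Vx P) := by
      have : (P.Mn : ℝ) ≤ nn P := a1
      rw [m3] at this
      push_cast at this
      exact this
    obtain ⟨q, hq⟩ : ∃ q, q = 4 ^ R / 10 ^ 5 := ⟨_, rfl⟩
    obtain ⟨Q, hQ⟩ : ∃ Q, Q = 4 ^ R := ⟨_, rfl⟩
    rw [← hq] at m4 z6
    rw [← hQ] at c2 hn hq z2 z1
    have m4' : (P.M0 : ℝ) ≤ 4 ^ q := by exact_mod_cast m4
    have z6' : (4:ℝ) ^ Jj R ≤ 4 ^ q := by exact_mod_cast z6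
    have hq2 : 10 ^ 5 * q ≤ Q := by rw [hq]; exact Nat.mul_div_le _ _
    have hQ2 : 10 ^ 6 ≤ Q := by
      have : 10 ^ 6 * 1 ≤ 10 ^ 6 * R := Nat.mul_le_mul_left _ (by omega)
      omega
    rw [div_le_iff₀ (lt_of_lt_of_le (by positivity) hn)]
    have hprod : (Z1.card : ℝ) * Z2.card ≤ 4 ^ (4 * q + 3 * Q + 2) := by
      calc (Z1.card : ℝ) * Z2.card ≤ (P.M0 * 4 ^ (Jj R + 1)) * (P.M0 * 4 ^ (Jj R + 3 * Q + 1)) := by
            gcongr
        _ = P.M0 * P.M0 * 4 ^ Jj R * 4 ^ Jj R * 4 ^ (3 * Q + 2) := by ring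
        _ ≤ 4 ^ q * 4 ^ q * 4 ^ q * 4 ^ q * 4 ^ (3 * Q + 2) := by gcongr
        _ = 4 ^ (4 * q + 3 * Q + 2) := by ring
    refine hprod.trans ?_
    have h15 : (4:ℝ) ^ (4 * q + 3 * Q + 2) * 4 ^ 15 ≤ 4 ^ (5 * Q) := by
      rw [← pow_add]
      apply pow_le_pow_right₀ (by norm_num)
      omega
    have h16 : (1:ℝ) ≤ 4.8 / 10 ^ 9 * 4 ^ 15 := by norm_num
    have h17 : (0:ℝ) < 4 ^ (4 * q + 3 * Q + 2) := by positivity
    calc (4:ℝ) ^ (4 * q + 3 * Q + 2) = 4 ^ (4 * q + 3 * Q + 2) * 1 := by ring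
      _ ≤ 4 ^ (4 * q + 3 * Q + 2) * (4.8 / 10 ^ 9 * 4 ^ 15) := by gcongr
      _ = 4.8 / 10 ^ 9 * (4 ^ (4 * q + 3 * Q + 2) * 4 ^ 15) := by ring
      _ ≤ 4.8 / 10 ^ 9 * 4 ^ (5 * Q) := by gcongr
      _ ≤ _ := by gcongr
  linarith

end H72C
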