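import Pool.Agent.Helper72_Cut.Statements
import Pool.Agent.Helper91_CW.Alg

/-!
# Squad MP_1dbb29_pr : module C9 DEC
-/

set_option autoImplicit false
set_option linter.unusedSectionVars false
set_option linter.unusedSimpArgs false

namespace H72C

open Finset Equiv Pool.Agent.Helper91_CW

namespace Dec

/-- the gadget vertex of level `0` in a given cell -/
def mk0 (P : Par) (g : Bool) (a : ZMod P.M0) : Hx P :=
  ⟨g, ⟨0, Nat.succ_pos _⟩, (a, ⟨0, by positivity⟩)⟩

theorem eq_mk0 (P : Par) (x : Hx P) (g : Bool) (a : ZMod P.M0) (h1 : gd P x = g) (h2 : lv P x = 0)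
    (h3 : ce P x = a) : x = mk0 P g a := by
  obtain ⟨g', ⟨j, hj⟩, ⟨a', i, hi⟩⟩ := x
  simp only [gd, lv, ce] at h1 h2 h3
  subst h1
  subst h2
  subst h3
  have : i = 0 := by
    have h : (4:ℕ) ^ ((⟨0, hj⟩ : Fin (P.m g' + 1)) : ℕ) = 1 := by simp
    have := hi
    rw [h] at this
    omega
  subst this
  rfl

/-- characterisation of the cross edges -/
theorem crossR_iff (P : Par) (x y : Hx P) : crossR P x y ↔
    ((x = mk0 P false 0 ∧ y = mk0 P true 0) ∨ (x = mk0 P true 0 ∧ y = mk0 P false 0)) ∨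
    ((x = mk0 P false 1 ∧ y = mk0 P true 1) ∨ (x = mk0 P true 1 ∧ y = mk0 P false 1)) := by
  constructor
  · rintro ⟨h1, h2, h3, h4⟩
    rcases h4 with ⟨h4, h5⟩ | ⟨h4, h5⟩
    · left
      cases hx : gd P x with
      | false =>
        have hy : gd P y = true := by
          rw [hx] at h1
          cases h : gd P y with
          | false => exact absurd h.symm h1
          | true => rfl
        exact Or.inl ⟨eq_mk0 P x _ _ hx h2 h4, eq_mk0 P y _ _ hy h3 h5⟩
      | true =>
        have hy : gd P y = false := by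
          rw [hx] at h1
          cases h : gd P y with
          | true => exact absurd h.symm h1
          | false => rfl
        exact Or.inr ⟨eq_mk0 P x _ _ hx h2 h4, eq_mk0 P y _ _ hy h3 h5⟩
    · right
      cases hx : gd P x with
      | false =>
        have hy : gd P y = true := by
          rw [hx] at h1
          cases h : gd P y with
          | false => exact absurd h.symm h1
          | true => rfl
        exact Or.inl ⟨eq_mk0 P x _ _ hx h2 h4, eq_mk0 P y _ _ hy h3 h5⟩
      | true =>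
        have hy : gd P y = false := by
          rw [hx] at h1
          cases h : gd P y with
          | true => exact absurd h.symm h1
          | false => rfl
        exact Or.inr ⟨eq_mk0 P x _ _ hx h2 h4, eq_mk0 P y _ _ hy h3 h5⟩
  · rintro ((⟨rfl, rfl⟩ | ⟨rfl, rfl⟩) | (⟨rfl, rfl⟩ | ⟨rfl, rfl⟩))
    · exact ⟨by simp [gd, mk0], rfl, rfl, Or.inl ⟨rfl, rfl⟩⟩
    · exact ⟨by simp [gd, mk0], rfl, rfl, Or.inl ⟨rfl, rfl⟩⟩
    · exact ⟨by simp [gd, mk0], rfl, rfl, Or.inr ⟨rfl, rfl⟩⟩
    · exact ⟨by simp [gd, mk0], rfl, rfl, Or.inr ⟨rfl, rfl⟩⟩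

theorem zero_ne_one' (P : Par) : (0 : ZMod P.M0) ≠ 1 := by
  have : Fact (1 < P.M0) := ⟨by have := P.hM0; omega⟩
  exact zero_ne_one

theorem mk0_inj (P : Par) {g g' : Bool} {a a' : ZMod P.M0} (h : mk0 P g a = mk0 P g' a') :
    g = g' ∧ a = a' := by
  have h1 : gd P (mk0 P g a) = gd P (mk0 P g' a') := by rw [h]
  have h2 : ce P (mk0 P g a) = ce P (mk0 P g' a') := by rw [h]
  exact ⟨h1, h2⟩

section aff
variable {V : Type} [Fintype V] [DecidableEq V]

/-- indicator matrix of an unordered pair -/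
def emx (a b x y : V) : ℝ := (if x = a ∧ y = b then 1 else 0) + (if x = b ∧ y = a then 1 else 0)

theorem sum_em {M : Type*} [AddCommGroup M] [Module ℝ M] (a b : V) (f : V → V → M) :
    ∑ x, ∑ y, emx a b x y • f x y = f a b + f b a := by
  have h : ∀ (c d : V), ∑ x, ∑ y, (if x = c ∧ y = d then (1:ℝ) else 0) • f x y = f c d := by
    intro c d
    rw [Finset.sum_eq_single c]
    · rw [Finset.sum_eq_single d]
      · simp
      · intro y _ hy
        rw [if_neg (fun h => hy h.2), zero_smul]
      · intro h; exact absurd (Finset.mem_univ _) h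
    · intro x _ hx
      refine Finset.sum_eq_zero fun y _ => ?_
      rw [if_neg (fun h => hx h.1), zero_smul]
    · intro h; exact absurd (Finset.mem_univ _) h
  unfold emx
  simp only [add_smul, Finset.sum_add_distrib, h]

theorem nu_affine (w w' : V → V → ℝ) (p : ℝ) (a b a' b' : V)
    (h : ∀ x y, w x y = (1 - 2 * p) * w' x y + p * (emx a b x y + emx a' b' x y)) :
    nu w = (1 - 2 * p) • nu w' + p • pt (swap a b) + p • pt (swap a' b') := by
  have h1 : wtot w = (1 - 2 * p) * wtot w' + 2 * p := by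
    unfold wtot
    simp only [h, Finset.sum_add_distrib, ← Finset.mul_sum]
    have e1 : ∀ c d : V, ∑ x, ∑ y, emx c d x y = 2 := fun c d => by
      have := sum_em c d (fun _ _ => (1:ℝ))
      simp only [smul_eq_mul, mul_one] at this
      rw [this]; norm_num
    rw [e1, e1]; ring
  have h2 : ∑ x, ∑ y, w x y • (pt (swap x y) : Alg (Perm V)) =
      (1 - 2 * p) • ∑ x, ∑ y, w' x y • (pt (swap x y) : Alg (Perm V)) +
      (2 * p) • (pt (swap a b) : Alg (Perm V)) + (2 * p) • (pt (swap a' b') : Alg (Perm V)) := by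
    have e : ∀ x y, w x y • (pt (swap x y) : Alg (Perm V)) =
        (1 - 2 * p) • (w' x y • (pt (swap x y) : Alg (Perm V))) +
        (p • (emx a b x y • (pt (swap x y) : Alg (Perm V))) +
          p • (emx a' b' x y • (pt (swap x y) : Alg (Perm V)))) := fun x y => by
      rw [h x y, smul_smul, smul_smul, smul_smul, ← add_smul, ← add_smul]
      congr 1; ring
    simp only [e, Finset.sum_add_distrib, ← Finset.smul_sum]
    rw [sum_em, sum_em, swap_comm b a, swap_comm b' a']
    rw [← two_smul ℝ (pt (swap a b) : Alg (Perm V)), ← two_smul ℝ (pt (swap a' b') : Alg (Perm V))]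
    rw [smul_smul, smul_smul, mul_comm p 2, add_assoc]
  unfold nu
  rw [h1, h2]
  module

end aff

end Dec

open Dec in
theorem DEC (hadj : ADJ_stmt) (hdeg : DEG_stmt) : DEC_stmt := by
  classical
  intro P
  refine ⟨mk0 P false 0, mk0 P true 0, mk0 P false 1, mk0 P true 1, rfl, rfl, rfl, rfl, ?_⟩
  have hdl : ∀ g, 6 ≤ dL P g 0 := fun g => by
    unfold dL
    have h1 := P.hM0
    have h2 := P.hm g
    have h3 := P.hw1 g 0
    rw [if_pos (show 0 < P.m g by omega)]
    simp only [pow_zero, mul_one, zero_add, pow_one]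
    omega
  have hnn : 2 ≤ nn P := by
    unfold nn
    have : 2 ≤ Fintype.card (Vx P) := by
      rw [Fintype.card_sum, Fintype.card_fin]
      have := P.hMn
      omega
    exact_mod_cast this
  have hp1 : 0 < 1 - 2 * p1 P := by
    unfold p1
    have a1 : (6:ℝ) ≤ dL P false 0 := by exact_mod_cast hdl false
    have a2 : (6:ℝ) ≤ dL P true 0 := by exact_mod_cast hdl true
    have b1 : 1 / (dL P false 0 : ℝ) ≤ 1 / 6 := one_div_le_one_div_of_le (by norm_num) a1
    have b2 : 1 / (dL P true 0 : ℝ) ≤ 1 / 6 := one_div_le_one_div_of_le (by norm_num) a2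
    have b3 : 1 / (2 * nn P) ≤ 1 / 4 := one_div_le_one_div_of_le (by norm_num) (by linarith)
    have b4 : 0 ≤ 1 / (2 * nn P) := by positivity
    nlinarith
  have hdeg' : ∀ x : Vx P, ((gr P).degree x : ℝ) = dg P x := fun x => by
    have := hdeg P x
    rw [← this]
  refine nu_affine _ _ _ _ _ _ _ fun x y => ?_
  unfold wG
  have hnt : ∀ c : ℝ, (1 - 2 * p1 P) * ((1 / (2 * nt P)) * c) = 1 / (2 * nn P) * c := fun c => by
    unfold nt
    field_simp
  have hcr : ∀ x y : Hx P, emx (Sum.inl (mk0 P false 0) : Vx P) (Sum.inl (mk0 P true 0)) (Sum.inl x) (Sum.inl y) +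
      emx (Sum.inl (mk0 P false 1) : Vx P) (Sum.inl (mk0 P true 1)) (Sum.inl x) (Sum.inl y) =
      if crossR P x y then 1 else 0 := by
    intro x y
    have n1 := zero_ne_one' P
    unfold emx
    simp only [Sum.inl.injEq]
    by_cases hc : crossR P x y
    · rw [if_pos hc]
      rcases (crossR_iff P x y).1 hc with (⟨rfl, rfl⟩ | ⟨rfl, rfl⟩) | (⟨rfl, rfl⟩ | ⟨rfl, rfl⟩)
      · rw [if_pos ⟨rfl, rfl⟩, if_neg (fun h => Bool.noConfusion (mk0_inj P h.1).1),
          if_neg (fun h => n1 (mk0_inj P h.1).2), if_neg (fun h => n1 (mk0_inj P h.1).2)]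
        norm_num
      · rw [if_neg (fun h => Bool.noConfusion (mk0_inj P h.1).1), if_pos ⟨rfl, rfl⟩,
          if_neg (fun h => n1 (mk0_inj P h.1).2), if_neg (fun h => n1 (mk0_inj P h.1).2)]
        norm_num
      · rw [if_neg (fun h => n1 (mk0_inj P h.1).2.symm), if_neg (fun h => n1 (mk0_inj P h.1).2.symm),
          if_pos ⟨rfl, rfl⟩, if_neg (fun h => Bool.noConfusion (mk0_inj P h.1).1)]
        norm_num
      · rw [if_neg (fun h => n1 (mk0_inj P h.1).2.symm), if_neg (fun h => n1 (mk0_inj P h.1).2.symm),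
          if_neg (fun h => Bool.noConfusion (mk0_inj P h.1).1), if_pos ⟨rfl, rfl⟩]
        norm_num
    · rw [if_neg hc]
      have hc' := fun h => hc ((crossR_iff P x y).2 h)
      rw [if_neg (fun h => hc' (Or.inl (Or.inl h))), if_neg (fun h => hc' (Or.inl (Or.inr h))),
        if_neg (fun h => hc' (Or.inr (Or.inl h))), if_neg (fun h => hc' (Or.inr (Or.inr h)))]
      norm_num
  have hcl : ∀ (g : Bool) (a : ZMod P.M0) (g' : Bool) (a' : ZMod P.M0) (x : Vx P) (i : Fin P.Mn),
      emx (Sum.inl (mk0 P g a) : Vx P) (Sum.inl (mk0 P g' a')) x (Sum.inr i) = 0 := by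
    intro g a g' a' x i
    simp [emx]
  have hcr' : ∀ (g : Bool) (a : ZMod P.M0) (g' : Bool) (a' : ZMod P.M0) (x : Vx P) (i : Fin P.Mn),
      emx (Sum.inl (mk0 P g a) : Vx P) (Sum.inl (mk0 P g' a')) (Sum.inr i) x = 0 := by
    intro g a g' a' x i
    simp [emx]
  rw [hdeg', hdeg']
  change (if (gr P).Adj x y then 1 / (2 * nn P) * (1 / (dg P x : ℝ) + 1 / (dg P y : ℝ)) else 0) = _
  rcases x with x | i <;> rcases y with y | i'
  · have ha := hadj P (Sum.inl x) (Sum.inl y)
    rw [hcr]
    change _ = (1 - 2 * p1 P) * wH P x y + _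
    unfold wH
    by_cases h1 : adjG P x y
    · have h2 : ¬ crossR P x y := fun h => h.1 h1.1
      rw [if_pos (ha.2 (Or.inl h1)), if_pos h1, if_neg h2, hnt]
      simp [dg]
    · by_cases h2 : crossR P x y
      · rw [if_pos (ha.2 (Or.inr h2)), if_neg h1, if_pos h2]
        obtain ⟨h3, h4, h5, _⟩ := h2
        simp only [dg, h4, h5, mul_zero, zero_add, mul_one]
        unfold p1
        cases hx : gd P x <;> cases hy : gd P y
        · exact absurd (hx.trans hy.symm) h3
        · rfl
        · rw [add_comm]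
        · exact absurd (hx.trans hy.symm) h3
      · rw [if_neg (fun h => (ha.1 h).elim h1 h2), if_neg h1, if_neg h2]
        ring
  · have ha := hadj P (Sum.inl x) (Sum.inr i')
    rw [hcl, hcl]
    change _ = (1 - 2 * p1 P) * qH P x + _
    unfold qH
    by_cases h1 : lv P x = P.m (gd P x)
    · rw [if_pos (ha.2 h1), if_pos h1, hnt]
      simp [dg]
    · rw [if_neg (fun h => h1 (ha.1 h)), if_neg h1]
      ring
  · have ha := hadj P (Sum.inr i) (Sum.inl y)
    rw [hcr', hcr']
    change _ = (1 - 2 * p1 P) * qH P y + _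
    unfold qH
    by_cases h1 : lv P y = P.m (gd P y)
    · rw [if_pos (ha.2 h1), if_pos h1, hnt]
      simp [dg, add_comm]
    · rw [if_neg (fun h => h1 (ha.1 h)), if_neg h1]
      ring
  · have ha := hadj P (Sum.inr i) (Sum.inr i')
    rw [hcr', hcr']
    change _ = (1 - 2 * p1 P) * (if i = i' then 0 else rH P) + _
    unfold rH
    by_cases h1 : i = i'
    · rw [if_neg (fun h => (ha.1 h) h1), if_pos h1]
      ring
    · rw [if_pos (ha.2 h1), if_neg h1, hnt]
      simp only [dg]
      ring

end H72C
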